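import Pool.Agent.Lib.MP_bb703b_an.Lower

set_option autoImplicit false

open Real Set

/-!
The maximal number `H(p,q,1,1)` of limit cycles of `x' = A(t) x^p + B(t) x^q` with `A`, `B` real
trigonometric polynomials of degree at most one, for all `p > q ≥ 2`.
-/

namespace Pool.Agent.Results.MP_bb703b_an.LinearTrig

/-- `f` is a real trigonometric polynomial of degree at most `m`. -/
def IsTrigPoly (m : ℕ) (f : ℝ → ℝ) : Prop :=
  ∃ a b : ℕ → ℝ, ∀ t : ℝ,
    f t = a 0 + ∑ k ∈ Finset.Icc 1 m, (a k * cos (k * t) + b k * sin (k * t))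

/-- `x` is a `2π`-periodic solution (on all of `ℝ`) of `x' = A(t) x^p + B(t) x^q`. -/
def IsPeriodicSolution (p q : ℕ) (A B x : ℝ → ℝ) : Prop :=
  (∀ t : ℝ, HasDerivAt x (A t * x t ^ p + B t * x t ^ q) t) ∧ ∀ t : ℝ, x (t + 2 * π) = x t

/-- The set of initial values `x(0)` of `2π`-periodic solutions. -/
def initialValues (p q : ℕ) (A B : ℝ → ℝ) : Set ℝ :=
  {c | ∃ x : ℝ → ℝ, IsPeriodicSolution p q A B x ∧ x 0 = c}

/-- The limit cycles, each represented by its initial value: the isolated points of the set of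
initial values of `2π`-periodic solutions. -/
def limitCycles (p q : ℕ) (A B : ℝ → ℝ) : Set ℝ :=
  {c | c ∈ initialValues p q A B ∧
    ∃ ε : ℝ, 0 < ε ∧ ∀ c' ∈ initialValues p q A B, |c' - c| < ε → c' = c}

/-- `H(p,q,m,n)`: the supremum of the number of limit cycles over all trigonometric polynomials `A`
of degree at most `m` and `B` of degree at most `n`. -/
noncomputable def H (p q m n : ℕ) : ℕ∞ :=
  ⨆ (A : ℝ → ℝ) (B : ℝ → ℝ) (_ : IsTrigPoly m A) (_ : IsTrigPoly n B),
    (limitCycles p q A B).encard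

theorem exists_tg {f : ℝ → ℝ} (h : IsTrigPoly 1 f) :
    ∃ a b c : ℝ, f = AbelLT.tg a b c := by
  obtain ⟨a, b, h⟩ := h
  refine ⟨a 0, b 1, a 1, ?_⟩
  funext t
  rw [h t]
  simp [AbelLT.tg]
  ring

theorem trig_tg (a b c : ℝ) : IsTrigPoly 1 (AbelLT.tg a b c) := by
  refine ⟨fun k => if k = 0 then a else c, fun _ => b, fun t => ?_⟩
  simp [AbelLT.tg]
  ring

theorem initialValues_eq (p q : ℕ) (A B : ℝ → ℝ) :
    initialValues p q A B = AbelLT.perInit p q A B := by
  ext c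
  constructor
  · rintro ⟨x, hx, h0⟩
    exact ⟨x, ⟨hx.1, hx.2⟩, h0⟩
  · rintro ⟨x, hx, h0⟩
    exact ⟨x, ⟨hx.hd, hx.per⟩, h0⟩

theorem limitCycles_eq (p q : ℕ) (A B : ℝ → ℝ) :
    limitCycles p q A B = AbelLT.limCyc p q A B := by
  unfold limitCycles AbelLT.limCyc
  rw [initialValues_eq]

/-- For all `p > q ≥ 2`: `H(p,q,1,1) = 4` if `p` is even, `3` if `p` is odd and `q` even, and `5` if
both are odd. -/
theorem result : ∀ p q : ℕ, 2 ≤ q → q < p →
    H p q 1 1 = if Even p then 4 else if Even q then 3 else 5 := by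
  intro p q hq hpq
  change H p q 1 1 = AbelLT.NN p q
  apply le_antisymm
  · unfold H
    refine iSup_le fun A => iSup_le fun B => iSup_le fun hA => iSup_le fun hB => ?_
    obtain ⟨a0, a1, a2, rfl⟩ := exists_tg hA
    obtain ⟨b0, b1, b2, rfl⟩ := exists_tg hB
    rw [limitCycles_eq]
    exact AbelLT.upper hq hpq a0 a1 a2 b0 b1 b2
  · obtain ⟨a0, a1, a2, b0, b1, b2, h⟩ := AbelLT.lower (p := p) (q := q) hq hpq
    rw [← limitCycles_eq] at h
    refine h.trans ?_
    unfold H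
    exact le_iSup_of_le (AbelLT.tg a0 a1 a2) (le_iSup_of_le (AbelLT.tg b0 b1 b2)
      (le_iSup_of_le (trig_tg a0 a1 a2) (le_iSup_of_le (trig_tg b0 b1 b2) le_rfl)))

end Pool.Agent.Results.MP_bb703b_an.LinearTrig
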