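import Pool.Agent.Lib.MP_bb703b_an.B.Fi

set_option autoImplicit false

open Real Set

/-!
Lower bounds for the maximal number `H(p,q,m,n)` of limit cycles of `x' = A(t) x^p + B(t) x^q`,
`A`, `B` trigonometric polynomials of degrees at most `m`, `n`, for all `p > q ≥ 2`.
-/

namespace Pool.Agent.Results.MP_bb703b_an.LowerBound

/-- `f` is a real trigonometric polynomial of degree at most `m`. -/
def IsTrigPoly (m : ℕ) (f : ℝ → ℝ) : Prop :=
  ∃ a b : ℕ → ℝ, ∀ t : ℝ,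
    f t = a 0 + ∑ k ∈ Finset.Icc 1 m, (a k * cos (k * t) + b k * sin (k * t))

/-- `x` is a `2π`-periodic solution (on all of `ℝ`) of `x' = A(t) x^p + B(t) x^q`. -/
def IsPeriodicSolution (p q : ℕ) (A B x : ℝ → ℝ) : Prop :=
  (∀ t : ℝ, HasDerivAt x (A t * x t ^ p + B t * x t ^ q) t) ∧ ∀ t : ℝ, x (t + 2 * π) = x t

/-- The set of initial values `x(0)` of `2π`-periodic solutions. -/
def initialValues (p q : ℕ) (A B : ℝ → ℝ) : Set ℝ :=
  {c | ∃ x : ℝ → ℝ, IsPeriodicSolution p q A B x ∧ x 0 = c}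

/-- The limit cycles, each represented by its initial value: the isolated points of the set of
initial values of `2π`-periodic solutions. -/
def limitCycles (p q : ℕ) (A B : ℝ → ℝ) : Set ℝ :=
  {c | c ∈ initialValues p q A B ∧
    ∃ ε : ℝ, 0 < ε ∧ ∀ c' ∈ initialValues p q A B, |c' - c| < ε → c' = c}

/-- `H(p,q,m,n)`: the supremum of the number of limit cycles over all trigonometric polynomials `A`
of degree at most `m` and `B` of degree at most `n`. -/
noncomputable def H (p q m n : ℕ) : ℕ∞ :=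
  ⨆ (A : ℝ → ℝ) (B : ℝ → ℝ) (_ : IsTrigPoly m A) (_ : IsTrigPoly n B),
    (limitCycles p q A B).encard

/-- `N(m,n,k) = max (n, m - k + k ⌊n/k⌋)` (for `k ≤ m`). -/
def N (m n k : ℕ) : ℕ := max n (m - k + k * (n / k))

theorem limitCycles_eq (p q : ℕ) (A B : ℝ → ℝ) :
    limitCycles p q A B = AbelLT.limCyc p q A B := by
  have h : initialValues p q A B = AbelLT.perInit p q A B := by
    ext c
    constructor
    · rintro ⟨x, hx, h0⟩
      exact ⟨x, ⟨hx.1, hx.2⟩, h0⟩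
    · rintro ⟨x, hx, h0⟩
      exact ⟨x, ⟨hx.hd, hx.per⟩, h0⟩
  unfold limitCycles AbelLT.limCyc
  rw [h]

theorem le_H {p q m n : ℕ} {A B : ℝ → ℝ} (hA : IsTrigPoly m A) (hB : IsTrigPoly n B) {c : ℕ∞}
    (h : c ≤ (AbelLT.limCyc p q A B).encard) : c ≤ H p q m n := by
  rw [← limitCycles_eq] at h
  refine h.trans ?_
  unfold H
  exact le_iSup_of_le A (le_iSup_of_le B (le_iSup_of_le hA (le_iSup_of_le hB le_rfl)))

theorem arith {m n k c : ℕ} (hk : 1 ≤ k) (hkm : k ≤ m) (hc : c = N m n k) :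
    4 * (m + n) + 5 - 8 * k - 2 * ((m + n) / k) ≤ 4 * c - 2 * (c / k) + 1 := by
  have h1 : n < k * (n / k) + k := Nat.lt_mul_div_succ n (by omega)
  have h2 : m - k + k * (n / k) ≤ c := by
    rw [hc]
    exact le_max_right _ _
  have h3 : c ≤ m + n := by
    have := Nat.mul_div_le n k
    rw [hc]
    unfold N
    exact max_le (by omega) (by omega)
  have h4 : c / k ≤ (m + n) / k := Nat.div_le_div_right h3
  omega

/-- THEOREM. Let `p > q ≥ 2` and `1 ≤ k ≤ min (m, n)`.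
(1) If `p` is odd then `H(p,q,m,n) ≥ 4 N(m,n,k) - 2 ⌊N(m,n,k)/k⌋ + 1`.
(2) If `q` is odd then `H(p,q,m,n) ≥ 4 N(n,m,k) - 2 ⌊N(n,m,k)/k⌋ + 1`.
(3) In both cases `H(p,q,m,n) ≥ 4 (m + n) + 5 - 8 k - 2 ⌊(m + n)/k⌋`.
(4) For all `p`, `q` (also both even) `H(p,q,m,n) ≥ 2 N - ⌊N/k⌋ + 1` for `N = N(m,n,k)` and for
`N = N(n,m,k)`. -/
theorem result : ∀ p q m n k : ℕ, 2 ≤ q → q < p → 1 ≤ k → k ≤ m → k ≤ n →
    (Odd p → ((4 * N m n k - 2 * (N m n k / k) + 1 : ℕ) : ℕ∞) ≤ H p q m n) ∧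
    (Odd q → ((4 * N n m k - 2 * (N n m k / k) + 1 : ℕ) : ℕ∞) ≤ H p q m n) ∧
    (Odd p ∨ Odd q →
      ((4 * (m + n) + 5 - 8 * k - 2 * ((m + n) / k) : ℕ) : ℕ∞) ≤ H p q m n) ∧
    ((2 * N m n k - N m n k / k + 1 : ℕ) : ℕ∞) ≤ H p q m n ∧
    ((2 * N n m k - N n m k / k + 1 : ℕ) : ℕ∞) ≤ H p q m n := by
  intro p q m n k hq hpq hk hkm hkn
  have h1 : Odd p → ((4 * N m n k - 2 * (N m n k / k) + 1 : ℕ) : ℕ∞) ≤ H p q m n := by
    intro hp
    obtain ⟨F, f, hF, hf, h⟩ := AbelLB.lower (P := p) (Q := q) (by omega) hq (by omega) hp hk hkm hkn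
      (N := N m n k) rfl
    exact le_H hF hf h
  have h2 : Odd q → ((4 * N n m k - 2 * (N n m k / k) + 1 : ℕ) : ℕ∞) ≤ H p q m n := by
    intro hp
    obtain ⟨F, f, hF, hf, h⟩ := AbelLB.lower (P := q) (Q := p) (by omega) (by omega) (by omega) hp hk hkn hkm
      (N := N n m k) rfl
    rw [AbelLB.limCyc_swap] at h
    exact le_H hf hF h
  refine ⟨h1, h2, ?_, ?_, ?_⟩
  · rintro (h | h)
    · refine le_trans ?_ (h1 h)
      exact_mod_cast arith hk hkm rfl
    · refine le_trans ?_ (h2 h)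
      have := arith (m := n) (n := m) hk hkn rfl
      rw [add_comm n m] at this
      exact_mod_cast this
  · obtain ⟨F, f, hF, hf, h⟩ := AbelLB.lower_one (P := p) (Q := q) (by omega) hq (by omega) hk hkm hkn
      (N := N m n k) rfl
    exact le_H hF hf h
  · obtain ⟨F, f, hF, hf, h⟩ := AbelLB.lower_one (P := q) (Q := p) (by omega) (by omega) (by omega) hk hkn hkm
      (N := N n m k) rfl
    rw [AbelLB.limCyc_swap] at h
    exact le_H hf hF h

end Pool.Agent.Results.MP_bb703b_an.LowerBound
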