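import Pool.Agent.Lib.MP_bb703b_an.TZ11

set_option autoImplicit false

open Real Set

/-!
Limit cycles of `x' = w(t) (A(t) x^p + B(t) x^q)` when every linear combination of `A` and `B` has
at most two zeros per period, and the numbers `H(p,q,m,0)`, `H(p,q,0,m)`, for all `p > q ≥ 2`.
-/

namespace Pool.Agent.Results.MP_bb703b_an.TwoZeros

/-- `f` is a real trigonometric polynomial of degree at most `m`. -/
def IsTrigPoly (m : ℕ) (f : ℝ → ℝ) : Prop :=
  ∃ a b : ℕ → ℝ, ∀ t : ℝ,
    f t = a 0 + ∑ k ∈ Finset.Icc 1 m, (a k * cos (k * t) + b k * sin (k * t))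

/-- `x` is a `2π`-periodic solution (on all of `ℝ`) of `x' = A(t) x^p + B(t) x^q`. -/
def IsPeriodicSolution (p q : ℕ) (A B x : ℝ → ℝ) : Prop :=
  (∀ t : ℝ, HasDerivAt x (A t * x t ^ p + B t * x t ^ q) t) ∧ ∀ t : ℝ, x (t + 2 * π) = x t

/-- The set of initial values `x(0)` of `2π`-periodic solutions. -/
def initialValues (p q : ℕ) (A B : ℝ → ℝ) : Set ℝ :=
  {c | ∃ x : ℝ → ℝ, IsPeriodicSolution p q A B x ∧ x 0 = c}

/-- The limit cycles, each represented by its initial value: the isolated points of the set of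
initial values of `2π`-periodic solutions. -/
def limitCycles (p q : ℕ) (A B : ℝ → ℝ) : Set ℝ :=
  {c | c ∈ initialValues p q A B ∧
    ∃ ε : ℝ, 0 < ε ∧ ∀ c' ∈ initialValues p q A B, |c' - c| < ε → c' = c}

/-- `H(p,q,m,n)`: the supremum of the number of limit cycles over all trigonometric polynomials `A`
of degree at most `m` and `B` of degree at most `n`. -/
noncomputable def H (p q m n : ℕ) : ℕ∞ :=
  ⨆ (A : ℝ → ℝ) (B : ℝ → ℝ) (_ : IsTrigPoly m A) (_ : IsTrigPoly n B),
    (limitCycles p q A B).encard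

/-- Every linear combination `a A + b B`, `a, b` real, vanishes identically or has at most two
zeros in `[0, 2π)`. -/
def TwoZeros (A B : ℝ → ℝ) : Prop :=
  ∀ a b : ℝ, (∀ t : ℝ, a * A t + b * B t = 0) ∨
    {t ∈ Ico (0 : ℝ) (2 * π) | a * A t + b * B t = 0}.encard ≤ 2

/-- the supremum of the number of limit cycles over all trigonometric polynomials `A` of degree at
most `m` and `B` of degree at most `n` with `TwoZeros A B`. -/
noncomputable def HTwo (p q m n : ℕ) : ℕ∞ :=
  ⨆ (A : ℝ → ℝ) (B : ℝ → ℝ) (_ : IsTrigPoly m A) (_ : IsTrigPoly n B) (_ : TwoZeros A B),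
    (limitCycles p q A B).encard

/-- continuous and `2π`-periodic -/
def Per (f : ℝ → ℝ) : Prop := Continuous f ∧ ∀ t : ℝ, f (t + 2 * π) = f t

/-- a continuous `2π`-periodic function `w ≥ 0` which does not vanish identically on any
interval -/
def Weight (w : ℝ → ℝ) : Prop :=
  Per w ∧ (∀ t : ℝ, 0 ≤ w t) ∧ ∀ s t : ℝ, s < t → ∃ u : ℝ, s < u ∧ u < t ∧ 0 < w u

/-- `4` if `p` is even, `3` if `p` is odd and `q` is even, `5` if both are odd -/
def N (p q : ℕ) : ℕ∞ := if Even p then 4 else if Even q then 3 else 5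

/-- `3` if `p - q` is even, `2` if `p - q` is odd -/
def M (p q : ℕ) : ℕ∞ := if Even (p - q) then 3 else 2

theorem trig_tg {m : ℕ} (hm : 1 ≤ m) (a b c : ℝ) : IsTrigPoly m (AbelLT.tg a b c) := by
  refine ⟨fun k => if k = 0 then a else if k = 1 then c else 0,
    fun k => if k = 1 then b else 0, fun t => ?_⟩
  rw [Finset.sum_eq_single 1]
  · simp [AbelLT.tg]
    ring
  · intro k hk hk1
    have : k ≠ 0 := by
      have := (Finset.mem_Icc.1 hk).1
      omega
    simp [hk1, this]
  · intro h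
    exact absurd (Finset.mem_Icc.2 ⟨le_rfl, hm⟩) h

theorem trig_const (m : ℕ) (c : ℝ) : IsTrigPoly m fun _ => c := by
  refine ⟨fun k => if k = 0 then c else 0, fun _ => 0, fun t => ?_⟩
  have : ∑ k ∈ Finset.Icc 1 m, ((if k = 0 then c else 0) * cos (k * t) + 0 * sin (k * t)) = 0 := by
    refine Finset.sum_eq_zero fun k hk => ?_
    have : k ≠ 0 := by
      have := (Finset.mem_Icc.1 hk).1
      omega
    simp [this]
  simp [this]

theorem trig_zero {f : ℝ → ℝ} (h : IsTrigPoly 0 f) : ∃ c : ℝ, f = fun _ => c := by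
  obtain ⟨a, b, h⟩ := h
  refine ⟨a 0, funext fun t => ?_⟩
  rw [h t]
  simp

theorem trig_cp {m : ℕ} {f : ℝ → ℝ} (h : IsTrigPoly m f) : AbelLT.CP f := by
  obtain ⟨a, b, h⟩ := h
  have hf : f = fun t => a 0 + ∑ k ∈ Finset.Icc 1 m, (a k * cos (k * t) + b k * sin (k * t)) :=
    funext h
  refine ⟨by rw [hf]; fun_prop, fun t => ?_⟩
  rw [h, h]
  congr 1
  refine Finset.sum_congr rfl fun k _ => ?_
  have e : (k : ℝ) * (t + 2 * π) = k * t + k * (2 * π) := by ring
  rw [e, cos_add_nat_mul_two_pi, sin_add_nat_mul_two_pi]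

theorem initialValues_eq (p q : ℕ) (A B : ℝ → ℝ) :
    initialValues p q A B = AbelLT.perInit p q A B := by
  ext c
  constructor
  · rintro ⟨x, hx, h0⟩
    exact ⟨x, ⟨hx.1, hx.2⟩, h0⟩
  · rintro ⟨x, hx, h0⟩
    exact ⟨x, ⟨hx.hd, hx.per⟩, h0⟩

theorem limitCycles_eq (p q : ℕ) (A B : ℝ → ℝ) :
    limitCycles p q A B = AbelLT.limCyc p q A B := by
  unfold limitCycles AbelLT.limCyc
  rw [initialValues_eq]

theorem upper {p q : ℕ} (hq : 2 ≤ q) (hpq : q < p) {w A B : ℝ → ℝ} (hw : Weight w) (hA : Per A)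
    (hB : Per B) (hAB : TwoZeros A B) :
    (limitCycles p q (fun t => w t * A t) (fun t => w t * B t)).encard ≤ N p q := by
  rw [limitCycles_eq]
  exact AbelLT.two_zero_upper' hq hpq ⟨⟨hw.1.1, hw.1.2⟩, hw.2.1, hw.2.2⟩ ⟨hA.1, hA.2⟩
    ⟨hB.1, hB.2⟩ hAB

theorem HTwo_eq {p q m n : ℕ} (hq : 2 ≤ q) (hpq : q < p) (hm : 1 ≤ m) (hn : 1 ≤ n) :
    HTwo p q m n = N p q := by
  apply le_antisymm
  · unfold HTwo
    refine iSup_le fun A => iSup_le fun B => iSup_le fun hA => iSup_le fun hB =>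
      iSup_le fun hAB => ?_
    rw [limitCycles_eq]
    exact AbelLT.two_zero_upper hq hpq (trig_cp hA) (trig_cp hB) hAB
  · obtain ⟨a0, a1, a2, b0, b1, b2, h⟩ := AbelLT.lower (p := p) (q := q) hq hpq
    rw [← limitCycles_eq] at h
    refine LE.le.trans h ?_
    unfold HTwo
    refine le_iSup_of_le (AbelLT.tg a0 a1 a2) (le_iSup_of_le (AbelLT.tg b0 b1 b2)
      (le_iSup_of_le (trig_tg hm a0 a1 a2) (le_iSup_of_le (trig_tg hn b0 b1 b2)
      (le_iSup_of_le (fun a b => ?_) le_rfl))))
    have e : ∀ t, a * AbelLT.tg a0 a1 a2 t + b * AbelLT.tg b0 b1 b2 t = _ :=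
      fun t => AbelLT.tg_comb a b a0 a1 a2 b0 b1 b2 t
    simp only [e]
    exact AbelLT.tg_encard _ _ _

theorem lower_M {p q m n : ℕ} (hq : 2 ≤ q) (hpq : q < p) : M p q ≤ H p q m n := by
  have h := AbelLT.one_lower (p := p) (q := q) hq hpq
  rw [← limitCycles_eq] at h
  refine LE.le.trans h ?_
  unfold H
  exact le_iSup_of_le (fun _ => -1) (le_iSup_of_le (fun _ => 1)
    (le_iSup_of_le (trig_const m (-1)) (le_iSup_of_le (trig_const n 1) le_rfl)))

/-- THEOREM. Let `p > q ≥ 2`.
(1) Let `A`, `B` be continuous and `2π`-periodic such that every linear combination vanishes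
identically or has at most two zeros in `[0,2π)`, and let `w ≥ 0` be continuous, `2π`-periodic and not
identically zero on any interval. Then `x' = w(t) (A(t) x^p + B(t) x^q)` has at most `N(p,q)` limit
cycles.
(2) `N(p,q)` is the maximal number of limit cycles for trigonometric polynomials `A`, `B` of degrees
at most `m`, `n` such that every linear combination vanishes identically or has at most two zeros in
`[0,2π)`, for all `m, n ≥ 1`.
(3) `H(p,q,m,0) = H(p,q,0,m) = M(p,q)` for all `m`. -/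
theorem result : ∀ p q : ℕ, 2 ≤ q → q < p →
    (∀ w A B : ℝ → ℝ, Weight w → Per A → Per B → TwoZeros A B →
      (limitCycles p q (fun t => w t * A t) (fun t => w t * B t)).encard ≤ N p q) ∧
    (∀ m n : ℕ, 1 ≤ m → 1 ≤ n → HTwo p q m n = N p q) ∧
    (∀ m : ℕ, H p q m 0 = M p q ∧ H p q 0 m = M p q) := by
  intro p q hq hpq
  refine ⟨fun w A B hw hA hB hAB => upper hq hpq hw hA hB hAB,
    fun m n hm hn => HTwo_eq hq hpq hm hn, fun m => ⟨?_, ?_⟩⟩
  · apply le_antisymm _ (lower_M hq hpq)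
    unfold H
    refine iSup_le fun A => iSup_le fun B => iSup_le fun hA => iSup_le fun hB => ?_
    obtain ⟨c, rfl⟩ := trig_zero hB
    rw [limitCycles_eq]
    rcases le_total 0 c with h | h
    · exact AbelLT.one_upper hq hpq (trig_cp hA) (trig_cp hB) (a := 0) (b := 1)
        (Or.inr one_ne_zero) (fun t => by linarith)
    · exact AbelLT.one_upper hq hpq (trig_cp hA) (trig_cp hB) (a := 0) (b := -1)
        (Or.inr (by norm_num)) (fun t => by linarith)
  · apply le_antisymm _ (lower_M hq hpq)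
    unfold H
    refine iSup_le fun A => iSup_le fun B => iSup_le fun hA => iSup_le fun hB => ?_
    obtain ⟨c, rfl⟩ := trig_zero hA
    rw [limitCycles_eq]
    rcases le_total 0 c with h | h
    · exact AbelLT.one_upper hq hpq (trig_cp hA) (trig_cp hB) (a := 1) (b := 0)
        (Or.inl one_ne_zero) (fun t => by linarith)
    · exact AbelLT.one_upper hq hpq (trig_cp hA) (trig_cp hB) (a := -1) (b := 0)
        (Or.inl (by norm_num)) (fun t => by linarith)

end Pool.Agent.Results.MP_bb703b_an.TwoZeros
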